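import Pool.Agent.Work.MP_4faf10_nt.SB.Asm

/-!
# Few terms need a large base

Let `c ^ k = a_1 ^ k + .. + a_m ^ k` in positive integers, `m ≥ 2`, `k ≥ 4` even, `p` a prime with `p - 1 ∣ k`. If `m` is smaller than
the number `q = p ^ (v_p(k) + 1)` (`2 ^ (v_2(k) + 2)` for `p = 2`), then exactly one term is prime to `p` after division by the gcd, and
`c` is exponentially large in `k`.
-/

set_option autoImplicit false

namespace Pool.Agent.Results.MP_4faf10_nt.FewTermsLargeBase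

open Pool.Agent.Work.MP_4faf10_nt.SB

theorem result :
    (∀ (k m c : ℕ) (a : Fin m → ℕ), 4 ≤ k → Even k → 2 ≤ m → Rep k m c a →
      ∀ p : ℕ, p.Prime → (p - 1) ∣ k → m < p ^ (padicValNat p k + if p = 2 then 2 else 1) →
        p ^ (k - padicValNat p k) < (2 * c) ^ Nat.totient (p - 1) ∧ One p m c a) ∧
    (∀ (s m c : ℕ) (a : Fin m → ℕ), 2 ≤ s → 2 ≤ m → Rep (2 ^ s) m c a → m < 4 * 2 ^ s →
      2 ^ 2 ^ s < 2 * 2 ^ s * c) ∧
    (∀ (k m c : ℕ) (a : Fin m → ℕ), Even k → 4 ≤ k → 2 ≤ m → m ≤ 7 → Rep k m c a →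
      2 ^ k < 2 * k * c) ∧
    ∀ (k m c : ℕ) (a : Fin m → ℕ), 6 ∣ k → 0 < k → 2 ≤ m → m ≤ 8 → Rep k m c a → 3 ^ k < 2 * k * c := by
  obtain ⟨h1, h2, h3, h4⟩ := fn
  refine ⟨?_, h2, h3, h4⟩
  intro k m c a hk4 hke hm hR p hp hpk hmq
  obtain ⟨h5, h6, _⟩ := h1 k m c a (by omega) hm hR
  by_cases hp2 : p = 2
  · subst hp2
    rw [if_pos rfl] at hmq
    obtain ⟨h7, h8⟩ := h6 hke hk4 hmq
    refine ⟨?_, h8⟩
    have ht : Nat.totient (2 - 1) = 1 := by decide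
    rw [ht, pow_one]
    exact h7
  · rw [if_neg hp2] at hmq
    exact h5 p hp hp2 hpk hmq

end Pool.Agent.Results.MP_4faf10_nt.FewTermsLargeBase
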