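import Pool.Agent.Work.MP_4faf10_nt.SB.AsmP

/-!
# Exponents without cheap representations

For every `A`, in every residue class modulo `M`, there are infinitely many `k` such that every representation
`c ^ k = a_1 ^ k + .. + a_m ^ k` in positive integers with `m ≥ 2` has `m > k ^ A` or `c > k ^ A`.
-/

set_option autoImplicit false

namespace Pool.Agent.Results.MP_4faf10_nt.NoCheapExponents

open Pool.Agent.Work.MP_4faf10_nt.SB

theorem result : ∀ A M r K : ℕ, 1 ≤ M → ∃ k : ℕ, K ≤ k ∧ k ≡ r [MOD M] ∧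
    ∀ (m c : ℕ) (a : Fin m → ℕ), 2 ≤ m → Rep k m c a → k ^ A < m ∨ k ^ A < c :=
  th

end Pool.Agent.Results.MP_4faf10_nt.NoCheapExponents
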