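import Pool.Agent.Work.MP_4faf10_nt.SB.AsmQ2

/-!
# At least three different terms

Let `c ^ k = a_1 ^ k + .. + a_m ^ k` in positive integers, `m ≥ 2`, `v = v_2(k)`. (1) If `16 ∣ k` and `m < 2 ^ (v + 2)` (for `k = 2 ^ v` this
is `4 k`), then there are at least three different values among the `a_i`. (2) If `8 ∣ k` and `m ≤ 2 ^ (v (v + 1) / 2 - 3) + 1`, then it is
impossible that all terms but one are equal.
-/

set_option autoImplicit false

namespace Pool.Agent.Results.MP_4faf10_nt.ThreeDistinctTerms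

open Pool.Agent.Work.MP_4faf10_nt.SB

theorem result : ∀ (k m c : ℕ) (a : Fin m → ℕ), 0 < k → 2 ≤ m → Rep k m c a →
    (16 ∣ k → m < 2 ^ (padicValNat 2 k + 2) → ∀ x x' : ℕ, ∃ l, a l ≠ x ∧ a l ≠ x') ∧
    (8 ∣ k → m ≤ 2 ^ (padicValNat 2 k * (padicValNat 2 k + 1) / 2 - 3) + 1 →
      ∀ (i : Fin m) (x : ℕ), ∃ l, l ≠ i ∧ a l ≠ x) :=
  tq2

end Pool.Agent.Results.MP_4faf10_nt.ThreeDistinctTerms
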